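import Pool.Agent.H48.ER.Targets

/-!
# MP_816b90_co: descendants in the elimination tree (DES)
-/

set_option autoImplicit false

namespace Pool.Agent.H91.ER

open Pool.Agent.H48.ER

section

variable {V : Type} {H : SimpleGraph V} {f : V → ℕ}

theorem par_lt {u t : V} (h : par H f u t) : f u < f t := h.1.2

theorem par_unique (hf : PEO H f) {w g g' : V} (h : par H f w g) (h' : par H f w g') : g = g' :=
  hf.inj (le_antisymm (h.2 g' h'.1) (h'.2 g h.1))

theorem par_upper (hf : PEO H f) {u t : V} (h : par H f u t) :
    upper H f u ⊆ insert t (upper H f t) := by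
  intro w hw
  by_cases hwt : w = t
  · exact Or.inl hwt
  · right
    refine ⟨hf.cl u t h.1 w hw (Ne.symm hwt), ?_⟩
    exact lt_of_le_of_ne (h.2 w hw) fun e => hwt (hf.inj e.symm)

theorem dn_le {u t : V} (h : u ∈ dn H f t) : f u ≤ f t := by
  have h1 : Relation.ReflTransGen (par H f) u t := h
  induction h1 with
  | refl => exact le_rfl
  | tail _ hbc ih => exact (ih ‹_›).trans (par_lt hbc).le

theorem exists_par [Finite V] {w : V} (h : (upper H f w).Nonempty) : ∃ g, par H f w g := by
  obtain ⟨g, hg, hmin⟩ := Set.exists_min_image (upper H f w) f (Set.toFinite _) h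
  exact ⟨g, hg, hmin⟩

theorem lemL [Finite V] (hf : PEO H f) (u : V) : ∀ (n : ℕ) (w : V), f u - f w ≤ n →
    H.Adj w u → f w < f u → w ∈ dn H f u := by
  intro n
  induction n with
  | zero =>
    intro w hn _ hlt
    omega
  | succ n ih =>
    intro w hn hadj hlt
    have hu : u ∈ upper H f w := ⟨hadj, hlt⟩
    obtain ⟨g, hg⟩ := exists_par ⟨u, hu⟩
    by_cases hgu : g = u
    · rw [hgu] at hg
      exact Relation.ReflTransGen.single hg
    · have h1 : H.Adj g u := hf.cl w g hg.1 u hu hgu
      have h2 : f g < f u := lt_of_le_of_ne (hg.2 u hu) fun e => hgu (hf.inj e)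
      have h3 := par_lt hg
      exact Relation.ReflTransGen.head hg (ih g (by omega) h1 h2)

theorem up_chain (hf : PEO H f) {u t : V} (h : Relation.ReflTransGen (par H f) u t) :
    ∀ w ∈ upper H f u, w ∈ dn H f t ∨ w ∈ upper H f t := by
  induction h using Relation.ReflTransGen.head_induction_on with
  | refl => exact fun w hw => Or.inr hw
  | head hac hcb ih =>
    intro w hw
    rcases par_upper hf hac hw with h1 | h1
    · left
      rw [h1]
      exact hcb
    · exact ih w h1

end

theorem pf_DES : T_DES := by
  intro V _ H f hf t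
  refine ⟨fun u hu => dn_le hu, ?_, ?_, ?_, ?_, ?_⟩
  · intro u hu w huw
    rcases lt_trichotomy (f w) (f u) with h | h | h
    · left
      exact Relation.ReflTransGen.trans (lemL hf u _ w le_rfl huw.symm h) hu
    · exact absurd (hf.inj h) huw.ne'
    · exact up_chain hf hu w ⟨huw, h⟩
  · intro u hu
    exact ⟨Relation.ReflTransGen.single hu, par_lt hu, hu.1, par_upper hf hu⟩
  · intro w htw hlt
    have h1 : Relation.ReflTransGen (par H f) w t := lemL hf t _ w le_rfl htw.symm hlt
    rcases Relation.ReflTransGen.cases_tail h1 with h2 | ⟨c, hc1, hc2⟩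
    · rw [h2] at hlt
      exact absurd hlt (lt_irrefl _)
    · exact ⟨c, hc2, hc1⟩
  · intro w
    constructor
    · intro hw
      rcases Relation.ReflTransGen.cases_tail hw with h2 | ⟨c, hc1, hc2⟩
      · exact Or.inl h2.symm
      · exact Or.inr ⟨c, hc2, hc1⟩
    · rintro (rfl | ⟨u, hu, hw⟩)
      · exact Relation.ReflTransGen.refl
      · exact Relation.ReflTransGen.tail hw hu
  · intro u u' hu hu' hne
    rw [Set.disjoint_left]
    intro w hw hw'
    have hU : Relator.RightUnique (par H f) := fun a b c hab hac => par_unique hf hab hac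
    have key : ∀ v v' : V, par H f v t → par H f v' t → v ≠ v' →
        ¬ Relation.ReflTransGen (par H f) v v' := by
      intro v v' hv hv' hvv hch
      rcases Relation.ReflTransGen.cases_head hch with h | ⟨c, hc1, hc2⟩
      · exact hvv h
      · have h1 := par_unique hf hc1 hv
        rw [h1] at hc2
        have h2 : f t ≤ f v' := dn_le hc2
        have h3 := par_lt hv'
        omega
    rcases Relation.ReflTransGen.total_of_right_unique hU hw hw' with h | h
    · exact key u u' hu hu' hne h
    · exact key u' u hu' hu hne.symm h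

end Pool.Agent.H91.ER
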