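import Pool.Agent.H48.ER.Targets

/-!
# MP_816b90_co: the part of the prism behind `Q` (KB)
-/

set_option autoImplicit false

namespace Pool.Agent.H91.ER

open Pool.Agent.H48.ER

/-- a path is connected -/
theorem path_sub {V : Type} {G : SimpleGraph V} {m : ℕ} {s b : V} {K X : Set V}
    (h : IP G m s b K) (hX : ∃ h ∈ K, h ∈ X)
    (hcl : ∀ u ∈ X, u ∈ K → ∀ w ∈ K, G.Adj u w → w ∈ X) : K ⊆ X := by
  obtain ⟨g, -, -, -, ga, hK⟩ := h
  have hg : ∀ i, i ≤ m → g i ∈ K := fun i hi => by rw [hK]; exact ⟨i, hi, rfl⟩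
  obtain ⟨h, hhK, hhX⟩ := hX
  rw [hK] at hhK
  obtain ⟨i₀, hi₀, rfl⟩ := hhK
  have hup : ∀ d, i₀ + d ≤ m → g (i₀ + d) ∈ X := by
    intro d
    induction d with
    | zero => intro _; exact hhX
    | succ d ih =>
      intro hd
      refine hcl _ (ih (by omega)) (hg _ (by omega)) _ (hg _ hd) ?_
      rw [ga _ _ (by omega) hd]
      omega
  have hdown : ∀ d, d ≤ i₀ → g (i₀ - d) ∈ X := by
    intro d
    induction d with
    | zero => intro _; exact hhX
    | succ d ih =>
      intro hd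
      refine hcl _ (ih (by omega)) (hg _ (by omega)) _ (hg _ (by omega)) ?_
      rw [ga _ _ (by omega) (by omega)]
      omega
  intro v hv
  rw [hK] at hv
  obtain ⟨j, hj, rfl⟩ := hv
  rcases le_total i₀ j with hij | hij
  · have h1 := hup (j - i₀) (by omega)
    rwa [show i₀ + (j - i₀) = j by omega] at h1
  · have h1 := hdown (i₀ - j) (by omega)
    rwa [show i₀ - (i₀ - j) = j by omega] at h1

theorem pf_KB : T_KB := by
  classical
  intro V G a b n P c J D Q hP
  have hpr := hP.pr.1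
  -- the vertices of `D ∪ Q` on the rung `i`
  have hDQ : ∀ i, ∀ v ∈ P i, (v ∈ D ∪ Q ↔ v = a i ∨ (i ∈ J ∧ v = c i)) := by
    intro i v hv
    have key : ∀ j, v ∈ P j → j = i := fun j hj => hpr.rung hj hv
    rw [hP.hD, hP.hQ]
    constructor
    · rintro (⟨j, hj, rfl⟩ | ⟨j, hj, rfl⟩ | ⟨j, hj, rfl⟩)
      · left
        rw [key j (hpr.a_mem j)]
      · right
        have := key j (hP.nx j).2
        subst this
        exact ⟨hj, rfl⟩
      · left
        rw [key j (hpr.a_mem j)]
    · rintro (rfl | ⟨hi, rfl⟩)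
      · by_cases hi : i ∈ J
        · exact Or.inl ⟨i, hi, rfl⟩
        · exact Or.inr (Or.inr ⟨i, hi, rfl⟩)
      · exact Or.inr (Or.inl ⟨i, hi, rfl⟩)
  -- the paths
  have hK : ∀ i, ∃ (m : ℕ) (s : V), IP G m s (b i) (kb P D Q ∩ P i) ∧
      (i ∈ J → G.Adj (c i) s) ∧ (i ∉ J → G.Adj (a i) s ∧ 1 ≤ m) := by
    intro i
    have hev := hP.pr.2 i
    have hpos := hpr.pos i
    obtain ⟨m, hm⟩ : ∃ m, n i = m + 1 + 1 := by
      rcases hev with ⟨r, hr⟩
      exact ⟨n i - 2, by omega⟩
    have hip := hpr.ip i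
    rw [hm] at hip
    obtain ⟨x, hx1, hx2, hx3, hx4⟩ := hip.tail
    have hcx : c i = x := hx4 _ (hP.nx i).2 (hP.nx i).1
    rw [← hcx] at hx1 hx2 hx3
    by_cases hi : i ∈ J
    · obtain ⟨y, hy1, hy2, hy3, -⟩ := hx3.tail
      refine ⟨m, y, ?_, fun _ => hy1, fun h => absurd hi h⟩
      have e1 : kb P D Q ∩ P i = (P i \ {a i}) \ {c i} := by
        ext v
        constructor
        · rintro ⟨⟨-, h2⟩, h3⟩
          have h4 := hDQ i v h3
          rw [h4] at h2
          push Not at h2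
          exact ⟨⟨h3, h2.1⟩, h2.2 hi⟩
        · rintro ⟨⟨h1, h2⟩, h3⟩
          refine ⟨⟨mem_ver h1, ?_⟩, h1⟩
          rw [hDQ i v h1]
          rintro (h | h)
          · exact h2 h
          · exact h3 h.2
      rw [e1]
      exact hy3
    · refine ⟨m + 1, c i, ?_, fun h => absurd h hi, fun _ => ⟨hx1, by omega⟩⟩
      have e1 : kb P D Q ∩ P i = P i \ {a i} := by
        ext v
        constructor
        · rintro ⟨⟨-, h2⟩, h3⟩
          have h4 := hDQ i v h3
          rw [h4] at h2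
          push Not at h2
          exact ⟨h3, h2.1⟩
        · rintro ⟨h1, h2⟩
          refine ⟨⟨mem_ver h1, ?_⟩, h1⟩
          rw [hDQ i v h1]
          rintro (h | h)
          · exact h2 h
          · exact hi h.1
      rw [e1]
      exact hx3
  choose m s hs1 hs2 hs3 using hK
  have hb : ∀ i, b i ∈ kb P D Q := fun i => (hs1 i).right_mem.1
  refine ⟨hb, ?_, ?_, ?_⟩
  · intro q hq
    rw [hP.hQ] at hq
    rcases hq with ⟨i, hi, rfl⟩ | ⟨i, hi, rfl⟩
    · exact ⟨s i, (hs1 i).left_mem.1, hs2 i hi⟩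
    · exact ⟨s i, (hs1 i).left_mem.1, (hs3 i hi).1⟩
  · rintro X ⟨h, hh, hhX⟩ hcl
    have hsub : ∀ i, (∃ h ∈ kb P D Q ∩ P i, h ∈ X) → kb P D Q ∩ P i ⊆ X := by
      intro i hi
      exact path_sub (hs1 i) hi fun u hu huK w hw huw => hcl u hu huK.1 w hw.1 huw
    obtain ⟨i, hi⟩ := hh.1
    have h1 := hsub i ⟨h, ⟨hh, hi⟩, hhX⟩
    have h2 : b i ∈ X := h1 (hs1 i).right_mem
    have h3 : ∀ j, b j ∈ X := by
      intro j
      by_cases hij : i = j
      · rw [← hij]
        exact h2
      · exact hcl _ h2 (hb i) _ (hb j) (hpr.b_adj hij)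
    intro v hv
    obtain ⟨j, hj⟩ := hv.1
    exact hsub j ⟨b j, (hs1 j).right_mem, h3 j⟩ ⟨hv, hj⟩
  · intro hcard
    have hfin : (kb P D Q).Finite := by
      have h1 : (ver P).Finite := by
        have h2 : ver P = ⋃ i, P i := by
          ext v
          rw [Set.mem_iUnion]
          rfl
        rw [h2]
        exact Set.finite_iUnion fun i => (hpr.ip i).finite
      exact h1.subset Set.sdiff_subset
    have hbi : Function.Injective b := by
      intro i j hij
      have h1 : b i ∈ P j := by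
        rw [hij]
        exact hpr.b_mem j
      exact hpr.rung (hpr.b_mem i) h1
    have hr : ({v | ∃ i, v = b i} : Set V).ncard = 3 := by
      have h1 : ({v | ∃ i, v = b i} : Set V) = b '' Set.univ := by
        ext v
        constructor
        · rintro ⟨i, rfl⟩
          exact ⟨i, Set.mem_univ _, rfl⟩
        · rintro ⟨i, -, rfl⟩
          exact ⟨i, rfl⟩
      rw [h1, Set.ncard_image_of_injective _ hbi, Set.ncard_univ, Nat.card_eq_fintype_card,
        Fintype.card_fin]
    have hsub : ({v | ∃ i, v = b i} : Set V) ⊆ kb P D Q := by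
      rintro v ⟨i, rfl⟩
      exact hb i
    have heq : ({v | ∃ i, v = b i} : Set V) = kb P D Q :=
      Set.eq_of_subset_of_ncard_le hsub (by omega) hfin
    have hsb : ∀ i, s i = b i := by
      intro i
      have h1 := (hs1 i).left_mem
      have h2 : s i ∈ ({v | ∃ i, v = b i} : Set V) := by
        rw [heq]
        exact h1.1
      obtain ⟨j, hj⟩ := h2
      have h3 : s i ∈ P j := by
        rw [hj]
        exact hpr.b_mem j
      rw [hj, hpr.rung h3 h1.2]
    have hJ : ∀ i, i ∈ J := by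
      intro i
      by_contra hi
      exact (hs1 i).ne (hs3 i hi).2 (hsb i)
    refine ⟨Finset.eq_univ_iff_forall.mpr hJ, fun i => ?_, heq.symm⟩
    rw [← hsb i]
    exact hs2 i (hJ i)

end Pool.Agent.H91.ER
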